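import Pool.Agent.Q57.QE.Main

/-!
# The equivariant motivic monodromy conjecture, over a point, for the hypersurfaces `∑ y_j f_j = 0`:
towers of cones

Let `F = ∑ y_j f_j(x)`, where `f = (f_1, …, f_r)` is a tuple of polynomials in `x_1, …, x_n` and the `y_j`
are further variables; `m = n + r`. Let `Z_F(T) ∈ 𝓜^μ̂_(X_s)[[T]]` be the motivic zeta function of Denef
and Loeser, with the action `ψ(t) ↦ ψ(λ t)` of `μ_N` on the jets `X_{N,1} = {ψ : F(ψ) = t ^ N mod t ^ (N +
1)}`. We consider its direct image in `𝓜^μ̂_ℂ[[T]]` under `X_s → Spec ℂ` and its fibre over the origin,
the series `zetaPt (hypF f) univ` and `zetaPt (hypF f) {0}`. The coefficients are classes of varieties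
with action of `μ̂`; the action is not forgotten.

We prove for the tuples `f` of a class the strong form of Q1 for these two series: they are in the ring
generated by `T` and finitely many `1 / (1 - 𝕃 ^ a T ^ b)`, `a < 0 < b`, where `a / b` is a root of the
Bernstein-Sato polynomial of `F`, and of its local Bernstein-Sato polynomial at the origin in the second
case.

The new point for the action. For ANY tuple `f` the action of `μ_N` on `X_{N,1}` is the restriction of an
action of the torus, `(x(t), y(t)) ↦ (x(λ t), λ ^ (-N) y(λ t))`, `λ ∈ 𝔾_m`: it respects the equation `F(x,
y) = t ^ N`, as `F` is linear in `y`. And in the Grothendieck ring of varieties with action of `μ̂` the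
class of a variety with such an action is the class with the trivial action (`gm_trivial`): on the stratum
of the points whose nonzero coordinates are given there is a character `χ` of the torus of the coordinates
such that `χ(λ z) = λ ^ g χ(z)` and the weights are multiples of `g`; the stratum is the product of `{χ =
1}`, with the trivial action, and of `𝔾_m`, with a linear action. So the two series are the images of the
series without action under the ring homomorphism `𝓜_ℂ → 𝓜^μ̂_ℂ` (`zetaPt_origin`, `zetaPt_univ`).

The class of the tuples. A *chart* for `f` consists of polynomials `a_1, …, a_c, w` and of a tuple `h` in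
`c` variables such that the `f_j` and the `h_k(a_1/w, …, a_c/w)` generate the same ideal of `ℂ[x]_w`; the
point `p` is in the chart if `w(p) ≠ 0`, `a_t(p) = 0` for all `t`, and a given `c × c` minor of the
Jacobian matrix of the `a_t` does not vanish at `p`. So at `p` the `g_t = a_t/w` are a part of a system of
local coordinates, and the scheme `{f = 0}` is there the product of the germ of `{h = 0}` at the origin
with a smooth factor.

The class `Tower false` of germs at the origin and its subclass `Tower true` are the smallest classes with:

* *sparse* tuples: the tuples `f_i = ∑_(π j = i) c_j x ^ (m_j)`, `c_j ≠ 0`, the vectors `(m_j, e_(π j))`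
  being linearly independent, are in `Tower false` (for instance the generators of all monomial ideals,
  with any coefficients, and the polynomials with affinely independent exponents);
* (both classes) *relative cones*: let the `f_j` be forms of the same degree `d > 0` in the variables
  `x_i`, `i ∈ T`, with polynomials in the other variables as coefficients, such that `|T|` of them are
  algebraically independent over the other variables, or that `d ≥ 2` and the relations between the
  derivatives `∂_i F`, `i ∈ T`, of a combination `F ≠ 0` of the `f_j` are the trivial ones (if `T` is
  the set of all variables, this means that `F` has an isolated singularity), or that `-|T|/d` is known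
  to be a root of the local `b`-functions. If every common zero `p ≠ 0` with `p_i = 0` for all `i ∉ T`
  is in one of finitely many charts with tuples `h` of the class, `f` is in the class;
* (both classes) *products* `f_i(x) g_j(y)` of two tuples of the class;
* (both classes) *hypersurfaces*: with `f` the class contains the polynomial `∑ y_j f_j(x)`;
* (only for `Tower true`) *sums*: with `f` and `g` the class contains the tuple `f_i(x), g_j(y)` in
  disjoint sets of variables, which generates the sum of the ideals;
* (both classes) *formal coordinates*: the class contains every tuple `f` which generates in `ℂ[[x]]` the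
  same ideal as `h_k(g_1, …, g_c)`, where `h` is a tuple of the class and `g_1, …, g_c` is a part of a
  system of formal coordinates.

The classes `Glob B` consist of the tuples whose zero set is covered by finitely many charts with tuples of
the class `Tower B`, of the relative cones whose zeros with `p_i ≠ 0` for some `i ∈ T` are covered in this
way, of their products, hypersurfaces `∑ y_j f_j` and (for `B = true`) sums, again and again.

Examples. (1) The tuples `(x_1), (x_1 ^ k)`, all smooth germs, the forms with isolated singularities, and
the forms of a large degree in the ideal of a smooth projective scheme (see below) are in `Tower true`. So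
are the ideals `(f_1(x), f_2(y), …)`, the products and the hypersurfaces `∑ y_j f_j(x)` made of them, again
and again, and the families of cones over them.

(2) Let `Z` be a closed subscheme of `ℙ ^ (n-1)` whose cone is covered by charts of the class (`Z` is smooth,
or locally the product of a smooth factor and a germ of the class, as the determinantal schemes, or schemes
with singularities which are cones over such schemes). If the ideal of `Z` is generated in the degrees
`≤ d₀` and `d > d₀`, the forms of degree `d` in the ideal are a cone of the class: with one form `g` of
degree `d - 1` there are the forms `x_1 g, …, x_n g`, which are algebraically independent.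

Method for the zeta functions without action. The arcs with origin in the set of the points of one chart
are the product of the jets of `h` at the origin and of free jets, for all orders at the same time; this
gives the motivic zeta function of a relative cone, by the multiplicities in the direction of `T` of an
arc whose origin has `p_i = 0` for `i ∈ T`, and the new pair is `(-|T|, d)`. The root `-|T|/d` of the
Bernstein-Sato polynomial comes from a Rees valuation of the ideal if `|T|` of the forms are independent;
and if the relations between the derivatives of `F` are trivial, `F ^ (-|T|/d)` is not a sum of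
derivatives of elements `g F ^ (-|T|/d - k)`, but this is what a functional equation whose polynomial does
not vanish at `-|T|/d` would give. For sums one uses the volumes of the sets `{ord ≥ k}`, whose generating
series are closed under the Hadamard product. If `α` is a root of all local `b`-functions of `h`, it is a
root of the local `b`-functions of `f` at all points of the chart: a functional equation for `f` with
power series coefficients is restricted to a transversal slice, and other generators of the same ideal
have the same `b`-functions.-/

set_option autoImplicit false

namespace Pool.Agent.Results.MP_b48657_ag.ConeTowersMu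

open MvPolynomial Pool.Agent.Q57.MD Pool.Agent.Q57.QE
open Pool.Agent.Q57.MC (hypF)
open Pool.Agent.W428.MOT (InRat LuMu)
open Pool.Agent.H628R4.TP (IsBFunction IsLocalBFunction)

/-- **The strong equivariant motivic monodromy conjecture over a point, for the hypersurfaces
`F = ∑ y_j f_j(x)` of the tuples of the class `Glob false` (direct image of `Z_F(T)` in `𝓜^μ̂_ℂ[[T]]`) and of the
class `Tower false` (fibre of `Z_F(T)` over the origin, in `𝓜^μ̂_ℂ[[T]]`).**

`zetaPt F W _ = ∑_{N ≥ 1} [X_{N,1,W}] 𝕃 ^ (-m N) T ^ N ∈ 𝓜^μ̂_ℂ[[T]]`, where `X_{N,1,W}` is the variety of the
`N`-jets `ψ` with `ψ(0) ∈ W` and `F(ψ) = t ^ N mod t ^ (N + 1)`, with the action `ψ(t) ↦ ψ(λ t)` of `μ_N`.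
`InRat (LuMu (pt0 ℂ)) S z` says that `z` is in the subring of `𝓜^μ̂_ℂ[[T]]` generated over `𝓜^μ̂_ℂ` by `T` and
the `1 / (1 - 𝕃 ^ a T ^ b)`, `(a, b) ∈ S`. `IsBFunction F b` says that `b(s) F ^ s = P(s) F ^ (s + 1)` for an
operator `P(s)` in the Weyl algebra, polynomial in `s` (for instance `b = b_F`), and `IsLocalBFunction F b`
that this holds for an operator with formal power series coefficients (for instance `b = b_{F,0}`). -/
theorem result {n r : ℕ} (f : Fin r → MvPolynomial (Fin n) ℂ) :
    (Glob false n r f → ∃ S : Finset (ℤ × ℤ), (∀ q ∈ S, q.1 < 0 ∧ 0 < q.2 ∧
      ∀ b : Polynomial ℂ, IsBFunction (hypF f) b → b.eval ((q.1 : ℂ) / q.2) = 0) ∧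
      InRat (LuMu (pt0 ℂ)) S (zetaPt (hypF f) Set.univ constr_univ)) ∧
    (Tower false n r f → ∃ S : Finset (ℤ × ℤ), (∀ q ∈ S, q.1 < 0 ∧ 0 < q.2 ∧
      ∀ b : Polynomial ℂ, IsLocalBFunction (hypF f) b → b.eval ((q.1 : ℂ) / q.2) = 0) ∧
      InRat (LuMu (pt0 ℂ)) S (zetaPt (hypF f) {0} constr_orig)) := by
  refine ⟨fun hf => mu_global (glob_main hf), fun hf => ?_⟩
  obtain ⟨S, hS, hz⟩ := mu_origin (tower_main hf)
  exact ⟨S, fun q hq => ⟨(hS q hq).1, (hS q hq).2.1, (hS q hq).2.2.2⟩, hz⟩

end Pool.Agent.Results.MP_b48657_ag.ConeTowersMu
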