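import Pool.Agent.Q57.QE.Main
import Pool.Agent.Q57.QM.All

/-!
# The equivariant motivic monodromy conjecture, over a point, for the hypersurfaces `∑ y_j f_j = 0`:
plane ideals and systems of quadrics

Let `F = ∑ y_j f_j(x)`, where `f = (f_1, …, f_r)` is a tuple of polynomials in `x_1, …, x_n` and the `y_j`
are further variables; `m = n + r`. Let `Z_F(T) ∈ 𝓜^μ̂_(X_s)[[T]]` be the motivic zeta function of Denef
and Loeser, with the action `ψ(t) ↦ ψ(λ t)` of `μ_N` on the jets `X_{N,1} = {ψ : F(ψ) = t ^ N mod t ^ (N +
1)}`. We consider its direct image in `𝓜^μ̂_ℂ[[T]]` under `X_s → Spec ℂ` and its fibre over the origin,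
the series `zetaPt (hypF f) univ` and `zetaPt (hypF f) {0}`. The coefficients are classes of varieties
with action of `μ̂`; the action is not forgotten.

We prove for the tuples `f` of a class the strong form of Q1 for these two series: they are in the ring
generated by `T` and finitely many `1 / (1 - 𝕃 ^ a T ^ b)`, `a < 0 < b`, where `a / b` is a root of the
Bernstein-Sato polynomial of `F`, and of its local Bernstein-Sato polynomial at the origin in the second
case.

The new point for the action. For ANY tuple `f` the action of `μ_N` on `X_{N,1}` is the restriction of an
action of the torus, `(x(t), y(t)) ↦ (x(λ t), λ ^ (-N) y(λ t))`, `λ ∈ 𝔾_m`: it respects the equation `F(x,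
y) = t ^ N`, as `F` is linear in `y`. And in the Grothendieck ring of varieties with action of `μ̂` the
class of a variety with such an action is the class with the trivial action (`gm_trivial`): on the stratum
of the points whose nonzero coordinates are given there is a character `χ` of the torus of the coordinates
such that `χ(λ z) = λ ^ g χ(z)` and the weights are multiples of `g`; the stratum is the product of `{χ =
1}`, with the trivial action, and of `𝔾_m`, with a linear action. So the two series are the images of the
series without action under the ring homomorphism `𝓜_ℂ → 𝓜^μ̂_ℂ` (`zetaPt_origin`, `zetaPt_univ`).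

The class of the tuples. A *chart* for `f` consists of polynomials `a_1, …, a_c, w` and of a tuple `h` in
`c` variables such that the `f_j` and the `h_k(a_1/w, …, a_c/w)` generate the same ideal of `ℂ[x]_w`; the
point `p` is in the chart if `w(p) ≠ 0`, `a_t(p) = 0` for all `t`, and a given `c × c` minor of the
Jacobian matrix of the `a_t` does not vanish at `p`. So at `p` the `a_t/w` are a part of a system of local
coordinates, and the scheme `{f = 0}` is there the product of the germ of `{h = 0}` at the origin with a
smooth factor.

The class. `QC k b n r f`, `k = cov, glob, germ`, `b = true, false`, are the smallest classes with: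
* `QC cov true` contains **all ideals of `ℂ[x, y]`**, **all ideals which are generated by polynomials of
  degree at most two in three variables** (arbitrary systems of quadrics), all ideals of subschemes of
  smooth surfaces of degree two (`QuadSys`: every common zero is a smooth point of a surface `f_j = 0`
  with `deg f_j ≤ 2`, the other `f_j` are arbitrary), and **all ideals which are generated by quadratic
  forms in four variables** (all these ideals are nonzero);
* *cones*: let the `f_j` be forms of degree `d > 0` in `n + 1` variables whose charts `x_i = 1` are in `QC
  cov b`, such that `n + 1` of the `f_j` are algebraically independent, or that `d ≥ 2` and the relations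
  between the derivatives of a combination `F ≠ 0` of the `f_j` are the trivial ones (so `F` has an
  isolated singularity), or that `-(n + 1)/d` is known to be a root of the local `b`-functions at the
  origin; then `f` is in `QC cov b`;
* *products* `f_i(x) g_j(y)`, and, for `b = true`, *sums* `(f_i(x), g_j(y))`, in disjoint sets of
  variables (all `k`);
* *charts*: `QC cov b` contains the tuples all of whose zeros are in finitely many charts with tuples `h`
  whose germs at the origin are in `QC germ b`;
* `QC cov b` is contained in `QC glob b` and in `QC germ b`, and `true` implies `false`;
* *hypersurfaces*: with `f` the classes `QC glob b`, `QC germ b` contain the polynomial `∑ y_j f_j(x)`;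
* *formal coordinates*: `QC germ b` contains every tuple `f` which generates in `ℂ[[x]]` the same ideal as
  `h_k(g_1, …, g_c)`, where `h` is in `QC germ b` and `g_1, …, g_c` is a part of a system of formal
  coordinates.

Examples. (1) `F = ∑ y_j q_j(x)` for arbitrary polynomials `q_j` of degree at most two in three variables, or
arbitrary quadratic forms in four variables. (The starting theorems `TrilinearReduction` reduce the conjecture
for all polynomials to the polynomials `∑ y_j q_j(x)`, `q_j` quadratic forms in `n` variables, for all `n`.)
(2) Forms of the same degree in three variables (cones over ideals of the plane) of which three are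
algebraically independent, for example all forms of degree `d > d₀` in an ideal generated in degrees `≤ d₀`;
the same for forms in four variables whose charts are systems of quadrics, or ideals of subschemes of smooth
quadric surfaces, or sums of ideals in disjoint variables; cones over such cones.
(3) Sums, products (in disjoint sets of variables) and the polynomials `∑ y_j f_j` of all these, again and
again; for germs at the origin also everything which has this form in formal coordinates.

Method for the zeta functions without action. `PM f` is the statement for the germ of `f` at the origin:
the motivic volumes of the sets of the arcs on which the ideal has the order `≥ N` have a rational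
generating series whose denominator only has factors which belong to roots of all local functional
equations.
* It holds for all ideals of the plane: this is proved by a tree of point blow-ups in the motivic measure
  (`vo`, the volumes of the sets of arcs given by constructible conditions on finitely many coefficients);
  the exceptional curves which are not Rees divisors and which meet only two other curves cancel.
* It is compatible with changes of coordinates, products, sums (Hadamard product of the volumes; roots:
  Thom-Sebastiani for ideals), with `∑ y_j f_j`, and with cones (root `-(n+1)/d` from a Rees valuation or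
  from twisted de Rham cohomology).
* At a point of a smooth surface `q = 0` of degree two there are coordinates `q, u, v`, where `u`, `v`
  come from the projection from a point of the surface or of the plane at infinity. They are rational
  functions whose inverse is rational on `q = 0`; so the ideal is locally `(q, h_j(u, v))`, a sum of
  ideals in disjoint variables. The inverse is only used to find the equations `h_j` of the charts.
* At a point at which all `f_j` are singular they are quadratic forms in three variables. Linear systems
  of singular conics have a common vertex, or are of the form `x L`. In the other cases some combination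
  is a nonsingular form, and its derivatives have only the trivial relations, which gives the root `-3/2`.
* Quadratic forms in four variables: linear systems of singular forms without a common vertex are
  contained in `x L + K w²`; then either they are the products of a linear form with three others, or the
  ideal is `(x, w²)` near some point, which gives the root `-2 = -4/2` of the exceptional divisor of the
  vertex.-/

set_option autoImplicit false

namespace Pool.Agent.Results.MP_b48657_ag.QuadricSystemsMu

open MvPolynomial Pool.Agent.Q57.QM Pool.Agent.Q57.QE
open Pool.Agent.Q57.MC (hypF)
open Pool.Agent.W428.MOT (InRat LuMu)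
open Pool.Agent.H628R4.TP (IsBFunction IsLocalBFunction)

/-- **The strong equivariant motivic monodromy conjecture over a point, for the hypersurfaces
`F = ∑ y_j f_j(x)` of the tuples of the class `QC .glob false` (direct image of `Z_F(T)` in `𝓜^μ̂_ℂ[[T]]`) and of the
class `QC .germ false` (fibre of `Z_F(T)` over the origin, in `𝓜^μ̂_ℂ[[T]]`).**

`zetaPt F W _ = ∑_{N ≥ 1} [X_{N,1,W}] 𝕃 ^ (-m N) T ^ N ∈ 𝓜^μ̂_ℂ[[T]]`, where `X_{N,1,W}` is the variety of the
`N`-jets `ψ` with `ψ(0) ∈ W` and `F(ψ) = t ^ N mod t ^ (N + 1)`, with the action `ψ(t) ↦ ψ(λ t)` of `μ_N`.
`InRat (LuMu (pt0 ℂ)) S z` says that `z` is in the subring of `𝓜^μ̂_ℂ[[T]]` generated over `𝓜^μ̂_ℂ` by `T` and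
the `1 / (1 - 𝕃 ^ a T ^ b)`, `(a, b) ∈ S`. `IsBFunction F b` says that `b(s) F ^ s = P(s) F ^ (s + 1)` for an
operator `P(s)` in the Weyl algebra, polynomial in `s` (for instance `b = b_F`), and `IsLocalBFunction F b`
that this holds for an operator with formal power series coefficients (for instance `b = b_{F,0}`). -/
theorem result {n r : ℕ} (f : Fin r → MvPolynomial (Fin n) ℂ) :
    (QC .glob false n r f → ∃ S : Finset (ℤ × ℤ), (∀ q ∈ S, q.1 < 0 ∧ 0 < q.2 ∧
      ∀ b : Polynomial ℂ, IsBFunction (hypF f) b → b.eval ((q.1 : ℂ) / q.2) = 0) ∧
      InRat (LuMu (pt0 ℂ)) S (zetaPt (hypF f) Set.univ constr_univ)) ∧
    (QC .germ false n r f → ∃ S : Finset (ℤ × ℤ), (∀ q ∈ S, q.1 < 0 ∧ 0 < q.2 ∧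
      ∀ b : Polynomial ℂ, IsLocalBFunction (hypF f) b → b.eval ((q.1 : ℂ) / q.2) = 0) ∧
      InRat (LuMu (pt0 ℂ)) S (zetaPt (hypF f) {0} constr_orig)) := by
  refine ⟨fun hf => mu_global (qc_glob steps hf), fun hf => ?_⟩
  obtain ⟨S, hS, hz⟩ := mu_origin (qc_germ steps hf)
  exact ⟨S, fun q hq => ⟨(hS q hq).1, (hS q hq).2.1, (hS q hq).2.2.2⟩, hz⟩

end Pool.Agent.Results.MP_b48657_ag.QuadricSystemsMu
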