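import Pool.Agent.Q221.EM.Fin

/-!
# The equivariant motivic monodromy conjecture: from smooth varieties to triple systems

Q1 is about functions on all smooth irreducible varieties `X` over subfields `k` of `ℂ`. We show that it
is enough to prove it for polynomials on affine spaces, and for the explicit polynomials of triple
systems, with the full structure of the conjecture: classes over `X_s` with the action of `μ̂`, and
rationality with the roots of the Bernstein-Sato polynomial itself.

Let `X` be an irreducible smooth complete intersection `g_1 = ⋯ = g_r = 0` in `𝔸 ^ n` over `k` (every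
smooth variety is covered by such `X`) and let `f` be a function on `X`, given by a polynomial. Then
`F = f + y_1 g_1 + ⋯ + y_r g_r` is a polynomial on `𝔸 ^ (n + r)`, and we add `κ` hyperbolic planes
`∑ y_m z_m`. Put `ρ = r + κ`, `u = 𝕃`, and let `A_ρ(T)` be the restriction of the zeta function of the
new polynomial to `X_s` (embedded by `y = z = 0`). Then, over `X_s` and with the action of `μ̂`,

`A_ρ(T) = u ^ ρ Z_f(u ^ (-ρ) T) + (u ^ ρ - 1) Y(u ^ (-ρ) T) u⁻¹ T / (1 - u⁻¹ T)`,

`Y(T) = ∑ [m-jets of X_s] u ^ (- m dim X) T ^ m`. From the rationality of `A_ρ`, …, `A_(ρ + 3)` with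
the pairs of slopes in the roots of the `b`-functions `(s + 1) b(s + ρ)`, … we get the rationality of
`Z_f` with the roots of `b`.

Method. Jets: `f(φ) + ∑ y_q g_q(φ) = t ^ N`, with `y(0) = 0`, is, for a given jet `φ` of `𝔸 ^ n`, a
system of linear equations for the jets `y_q`, surjective from the order of contact of `φ` with `X` on,
and equivariant; for an equivariant form of Hensel's lemma we change `f` by a combination of the `g_q`
(a shear of the `y_q`) such that the derivatives of `f` in the directions of a splitting of the normal
bundle of `X` are zero along `X`, and move the jets along these directions. Functional equations: the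
theorem for `F` is the one of `MP_b22d1f_ag.SmoothVarieties`. Normal forms: the ones of `Q42.CU`.
-/

set_option autoImplicit false

namespace Pool.Agent.Results.MP_b48657_ag.SmoothVarietiesMu

open MvPolynomial Pool.Agent.Q221.EM Pool.Agent.Q223.MM Pool.Agent.Q42.CU

/-- **Q1 for functions on smooth complete intersections follows from Q1 for triple systems.**

`k` is a field with an embedding in `ℂ`. `SmoothCI g`: `X = {g_1 = ⋯ = g_r = 0}` is a smooth irreducible
complete intersection over `k` in `𝔸 ^ n`, with reduced equations (the ideal of the `g_q` is prime over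
`k`, and at each zero in `ℂ ^ n` some minor of order `r` of the Jacobian matrix is not zero).
`FK f g` is the polynomial `F = f + ∑ y_q g_q` in `n + r` variables; `hyp F κ = F + ∑_{m ≤ κ} y_m z_m`.

`zer g f` is `X_s = {g = f = 0}`; `zetaX g f = ∑ [X_{N,1}] 𝕃 ^ (- N dim X) T ^ N` is the motivic zeta
function of `f` on `X`, over the ring `MS (zer g f) = 𝓜^μ̂_{X_s}`, `LuS` is `𝕃`. `InRat u S Z`: `Z` is in the
subring generated by the coefficient ring, `T` and the `1 / (1 - u ^ a T ^ d)`, `(a, d) ∈ S`.
`IsBX f g b`: there is `P(s)` in the algebra generated by `s`, the functions and the vector fields on `X`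
(over `ℂ`) with `b(s) f ^ s = P(s) f ^ (s + 1)`.
`Q1X g f`: for every `b ≠ 0` with `IsBX` there is a finite set `S` of pairs with `d > 0`, `b(a / d) = 0`
and `InRat LuS S (zetaX g f)`. For the Bernstein-Sato polynomial `b` this is Q1 (its roots are negative by
Kashiwara's theorem), and this case implies the case of all the other `b`. `Q1A F` is the case of a
polynomial `F` on an affine space (no equations).

First part: the pairs `(X, f)` one by one: Q1 for `f + ∑ y_q g_q + ∑_{m ≤ κ + j} y_m z_m`,
`j = 0, 1, 2, 3`, implies Q1 for `(X, f)`. Second part: Q1 for all `(X, f)` is equivalent to Q1 for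
all polynomials on affine spaces. Third part: it is equivalent to Q1 for the polynomials
`Phi 24⁻¹ E c = (∑ z_i ^ 3) / 24 + ∑_j y_j (∑_{i ∈ E j} z_i - c j)` of triple systems (`IsTriple S E c`:
every `E j` has three elements and `c j = 0`, or one element and `c j = 0` or `c j ∈ S`; the `c j` which
are not zero are different) with minimal exponent larger than `N` (`MinExp N F`: some `(s + 1) c(s)` is a
`b`-function of `F`, `c ≠ 0` and the roots of `c` have real part `< -N`); if the equations of `X` and `f`
have coefficients in the `ℚ`-span of `S ∋ 1`, the constants are in `S`. -/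
theorem result (k : Type) [Field k] [Algebra k ℂ] [CharZero k] :
    (∀ (n r : ℕ) (g : Fin r → MvPolynomial (Fin n) k) (f : MvPolynomial (Fin n) k), SmoothCI g →
      ∀ κ : ℕ, (∀ j < 4, Q1A (hyp (FK f g) (κ + j))) → Q1X g f) ∧
    ((∀ (m : ℕ) (F : MvPolynomial (Fin m) k), Q1A F) ↔
      ∀ (n r : ℕ) (g : Fin r → MvPolynomial (Fin n) k) (f : MvPolynomial (Fin n) k),
        SmoothCI g → Q1X g f) ∧
    ∀ S : Set k, (1 : k) ∈ S → ∀ N : ℕ,
    ((∀ (n r : ℕ) (g : Fin r → MvPolynomial (Fin n) k) (f : MvPolynomial (Fin n) k),
        SmoothCI g → (∀ q d, coeff d (g q) ∈ Submodule.span ℚ S) →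
        (∀ d, coeff d f ∈ Submodule.span ℚ S) → Q1X g f) ↔
      ∀ (m r : ℕ) (E : Fin r → Finset (Fin m)) (c : Fin r → k), 0 < m → IsTriple S E c →
        MinExp N (map (algebraMap k ℂ) (Phi 24⁻¹ E c)) → Q1A (Phi 24⁻¹ E c)) :=
  ⟨fun _ _ _ _ hg κ h => reduce_hyp hg κ h,
    ⟨fun h _ _ _ _ hg => reduce_hyp hg 0 fun _ _ => h _ _,
      fun h _ F => h _ 0 Fin.elim0 F smoothCI_elim0⟩,
    fun S hS N => equiv_spanA S hS N⟩

end Pool.Agent.Results.MP_b48657_ag.SmoothVarietiesMu
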