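import Pool.Agent.Q223.TM.Red

/-!
# The equivariant motivic monodromy conjecture: from smooth varieties to trilinear polynomials

Q1 is about functions on all smooth irreducible varieties over subfields `k` of `ℂ`, with classes over
`X_s` and with the action of `μ̂`. We show that it is enough to prove it for explicit polynomials on
affine spaces which are linear in each of three groups of variables and have arbitrarily large minimal
exponent.

**Programs.** A *program* over `k` consists of a forest on the nodes `0, …, κ - 1` (`o m` is the parent of
the node `m`, and comes before `m`; `o m = none` for the roots), of a label `v m ∈ {1, …, n}` for every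
node, of a coefficient `c m` for every node and of a constant `a`. Its polynomial is

`F = a + ∑_m c_m z_m + ∑_m y_m (z_m - z_(o m) x_(v m))`  (with `z_none = 1`),

of degree at most one in each of the three groups of variables `x`, `y`, `z`. Horner's scheme of a
polynomial `h(x)` along a forest gives an automorphism of the polynomial ring over `k` which takes
`h(x) + ∑ y_m z_m` to `F`. Such schemes exist for all large `κ`. For a function `f` on a smooth complete
intersection `X : g_1 = ⋯ = g_r = 0` we take `h = f + ∑ u_q g_q`.

The transfer of rationality from the stabilisations of `h` to `f` (over `X_s`, with the action) is the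
theorem of the hand-in `SmoothVarietiesMu`; the `b`-functions of the stabilisations are those of
`MP_b22d1f_ag.SmoothVarieties`.
-/

set_option autoImplicit false

namespace Pool.Agent.Results.MP_b48657_ag.TrilinearReductionMu

open MvPolynomial Pool.Agent.Q221.EM Pool.Agent.Q223.MM Pool.Agent.Q223.TW

/-- **Q1 for functions on smooth complete intersections over `k` is equivalent to Q1 for the trilinear
polynomials of programs over `k` with minimal exponent larger than `N`.**

`k` is a field with an embedding in `ℂ`. `SmoothCI g`: `X = {g_1 = ⋯ = g_r = 0}` is a smooth irreducible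
complete intersection over `k` in `𝔸 ^ n`, with reduced equations. `Q1X g f`: for every `b ≠ 0` with
`b(s) f ^ s = P(s) f ^ (s + 1)` on `X` there is a finite set `Σ` of pairs `(a, d)` with `d > 0`,
`b(a / d) = 0` and `Z_f(T) ∈ 𝓜^μ̂_{X_s}[T, 1 / (1 - 𝕃 ^ a T ^ d)]_{(a, d) ∈ Σ}`. For the Bernstein-Sato
polynomial `b` this is Q1 (its roots are negative by Kashiwara's theorem, so `a < 0`), and this case
implies the case of all the other `b`. `Q1A F` is the case of a polynomial `F` on an affine space.
`MinExp N F`: there is `c ≠ 0` such that `(s + 1) c(s)` satisfies such a functional equation for `F`, and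
the roots of `c` have real part `< -N`; so the minimal exponent of `F` is larger than `N`.
`Forest o`: `o m = some m'` implies `m' < m`. `progA o v c a` is the polynomial
`a + ∑ c_m z_m + ∑ y_m (z_m - z_(o m) x_(v m))`, `z_none = 1`. `t ∈ coeffs S`: `t = 0` or `t ∈ S` or
`-t ∈ S`.

First part: if the `g_q` and `f` have coefficients in the additive group generated by `S` (which
contains `1`), there are programs with `κ`, `κ + 1`, `κ + 2`, … nodes whose polynomials have minimal
exponent larger than `N`, such that Q1 for the first four implies Q1 for `(X, f)`. Second part: the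
equivalence. -/
theorem result (k : Type) [Field k] [Algebra k ℂ] (S : Set k)
    (hS : (1 : k) ∈ AddSubgroup.closure S) (N : ℕ) :
    (∀ (n r : ℕ) (g : Fin r → MvPolynomial (Fin n) k) (f : MvPolynomial (Fin n) k), SmoothCI g →
      (∀ q d, coeff d (g q) ∈ AddSubgroup.closure S) →
      (∀ d, coeff d f ∈ AddSubgroup.closure S) →
      ∃ (m κ : ℕ) (a : k), 0 < κ ∧ a ∈ AddSubgroup.closure S ∧
        ∃ (o : ∀ j : ℕ, Fin (κ + j) → Option (Fin (κ + j)))
        (v : ∀ j : ℕ, Fin (κ + j) → Fin m) (c : ∀ j : ℕ, Fin (κ + j) → k),
        (∀ j, Forest (o j) ∧ (∀ m, c j m ∈ coeffs S) ∧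
          MinExp N (map (algebraMap k ℂ) (progA (o j) (v j) (c j) a))) ∧
        ((∀ j < 4, Q1A (progA (o j) (v j) (c j) a)) → Q1X g f)) ∧
    ((∀ (n r : ℕ) (g : Fin r → MvPolynomial (Fin n) k) (f : MvPolynomial (Fin n) k), SmoothCI g →
        (∀ q d, coeff d (g q) ∈ AddSubgroup.closure S) →
        (∀ d, coeff d f ∈ AddSubgroup.closure S) → Q1X g f) ↔
      ∀ (m κ : ℕ) (o : Fin κ → Option (Fin κ)) (v : Fin κ → Fin m) (c : Fin κ → k) (a : k),
        0 < κ → Forest o → (∀ m, c m ∈ coeffs S) → a ∈ AddSubgroup.closure S →
        MinExp N (map (algebraMap k ℂ) (progA o v c a)) → Q1A (progA o v c a)) :=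
  ⟨fun _ _ _ _ hg hgS hfS => Pool.Agent.Q223.TM.reduce_tri S hS N hg hgS hfS,
    Pool.Agent.Q223.TM.equiv_tri S hS N⟩

end Pool.Agent.Results.MP_b48657_ag.TrilinearReductionMu
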